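import Pool.Agent.Lib.MP_2c7063_coD.Main

/-!
# Orderings of two disjoint bases with all windows of rank at least `r - 1`

`B`, `B'` are disjoint bases of a matroid of finite rank `r`.  An ordering `x 0, ..., x (r - 1)` of
`B` followed by an ordering `y 0, ..., y (r - 1)` of `B'` has the `2 r` cyclic windows
`{x i, ..., x (r - 1), y 0, ..., y (i - 1)}` and `{y i, ..., y (r - 1), x 0, ..., x (i - 1)}`.
The first kind are bases for all `i`, the second kind have rank at least `r - 1` for all `i`, and
for at least `r / (12 (log r + 1) ^ 2)` of the `i` (binary logarithm, rounded down) both are bases.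
The orderings can start with any given serial symmetric exchange `a`, `b` of length `k`.
-/

namespace Pool.Agent.Results.MP_2c7063_co.DefectOne

open Set

theorem result {α : Type*} (M : Matroid α) {B B' : Set α} (hB : M.IsBase B) (hB' : M.IsBase B')
    (hd : Disjoint B B') {r : ℕ} (hr : B.encard = r)
    -- a serial symmetric exchange of length `k` (for example `k = 0`)
    (k : ℕ) (a b : ℕ → α) (ha : InjOn a (Iio k)) (hb : InjOn b (Iio k)) (haB : a '' Iio k ⊆ B)
    (hbB : b '' Iio k ⊆ B')
    (hab : ∀ i ≤ k, M.IsBase ((B \ a '' Iio i) ∪ b '' Iio i) ∧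
      M.IsBase ((B' \ b '' Iio i) ∪ a '' Iio i)) :
    ∃ x y : ℕ → α,
      -- orderings of `B` and of `B'`
      InjOn x (Iio r) ∧ InjOn y (Iio r) ∧ x '' Iio r = B ∧ y '' Iio r = B' ∧
      -- that start with the given exchange
      (∀ j < k, x j = a j ∧ y j = b j) ∧
      -- all windows
      (∀ i ≤ r, M.IsBase ((B \ x '' Iio i) ∪ y '' Iio i) ∧
        (r : ℕ∞) ≤ M.eRk ((B' \ y '' Iio i) ∪ x '' Iio i) + 1) ∧
      -- the indices for which the second window is a base, too
      r ≤ 12 * (Nat.log 2 r + 1) ^ 2 *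
        {i : ℕ | i ≤ r ∧ M.IsBase ((B' \ y '' Iio i) ∪ x '' Iio i)}.ncard :=
  Pool.Agent.Lib.MP_2c7063_coD.main hB hB' hd hr k a b ha hb haB hbB hab

end Pool.Agent.Results.MP_2c7063_co.DefectOne
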