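import Pool.Agent.Lib.MP_2c7063_co.Main

/-!
# Any three elements of a base have a serial symmetric exchange

Let `B`, `B'` be disjoint bases of a matroid.  For any three elements of `B` there are an ordering
`a 0, a 1, a 2` of these elements and distinct elements `b 0, b 1, b 2` of `B'` such that the
exchange of `a j` and `b j`, `j < i`, turns `(B, B')` into a pair of bases, for `i = 1, 2, 3`.
In particular, for disjoint bases of a matroid of rank four there is a good cyclic ordering (first
`B`, then `B'`) that begins with a given element of `B`.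
-/

namespace Pool.Agent.Results.MP_2c7063_co.ThreeElements

theorem result {α : Type*} (M : Matroid α) {B B' : Set α} (hB : M.IsBase B) (hB' : M.IsBase B')
    (hd : Disjoint B B') :
    (∀ A ⊆ B, A.ncard = 3 → ∃ a b : Fin 3 → α, Function.Injective a ∧ Function.Injective b ∧
      Set.range a = A ∧ Set.range b ⊆ B' ∧ ∀ i : ℕ, i ≤ 3 →
        M.IsBase ((B \ a '' {j | (j : ℕ) < i}) ∪ b '' {j | (j : ℕ) < i}) ∧
        M.IsBase ((B' \ b '' {j | (j : ℕ) < i}) ∪ a '' {j | (j : ℕ) < i})) ∧
    (B.ncard = 4 → ∀ e ∈ B, ∃ x : ZMod 8 → α, Function.Injective x ∧ x 0 = e ∧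
      {x 0, x 1, x 2, x 3} = B ∧ {x 4, x 5, x 6, x 7} = B' ∧
      ∀ i, M.IsBase {x i, x (i + 1), x (i + 2), x (i + 3)}) :=
  ⟨fun _ hA h3 => Pool.Agent.Lib.MP_2c7063_co.three hB hB' hd hA h3,
    fun h4 _ he => Pool.Agent.Lib.MP_2c7063_co.rank_four hB hB' hd h4 he⟩

end Pool.Agent.Results.MP_2c7063_co.ThreeElements
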